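import Mathlib
import Pool.Agent.H510R2.Maier.MB10

/-!
# All numbers of primes between the two Maier constants occur in windows of Cramér's length

Let `λ > 0`. Cramér's conjecture concerns the primes in the windows `(n, n + λ (log n)²]`: their number
should be about `λ log n` on average, and `G(X) ≍ (log X)²` says that for small `λ` it can be `0`, for large `λ`
it can not. We show: for all large `X` EVERY integer `m` with
`(e^γ / 2 + ε) λ log X ≤ m ≤ 1.07 λ log X`
is the exact number of primes of such a window with `X < n < 3 X`.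

Proof: the two ends are Maier's matrix method (`Pool.Agent.H510R2.Maier`, windows of length `λ (log n)²`, with the
constants `e^γ/2 = 0.8905…` and `1.07`), and between the two ends the number of primes of the window
changes by at most one when `n` is replaced by `n + 1`, since the two end points move by one, and by at most two.
-/

open Finset Filter Topology

namespace Pool.Agent.Results.MP_3bc45c_nt.CramerWindowCounts

open Pool.Agent.H510R2.Maier

/-- discrete intermediate values, upwards or downwards, for integer functions with steps at most one -/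
theorem ivt_up (g : ℕ → ℤ) (m : ℤ) (a : ℕ) : ∀ k : ℕ, (∀ i, a ≤ i → i < a + k → g (i + 1) ≤ g i + 1) →
    g a ≤ m → m ≤ g (a + k) → ∃ n, a ≤ n ∧ n ≤ a + k ∧ g n = m := by
  intro k
  induction k with
  | zero =>
    intro _ h1 h2
    exact ⟨a, le_refl _, le_refl _, le_antisymm h1 (by simpa using h2)⟩
  | succ k ih =>
    intro hs h1 h2
    rcases le_or_gt m (g (a + k)) with h | h
    · obtain ⟨n, hn1, hn2, hn3⟩ := ih (fun i hi hi2 => hs i hi (by omega)) h1 h
      exact ⟨n, hn1, by omega, hn3⟩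
    · refine ⟨a + (k + 1), by omega, le_refl _, ?_⟩
      have := hs (a + k) (by omega) (by omega)
      rw [show a + (k + 1) = a + k + 1 by ring] at h2 ⊢
      omega

theorem ivt_down (g : ℕ → ℤ) (m : ℤ) (a k : ℕ) (hs : ∀ i, a ≤ i → i < a + k → g i ≤ g (i + 1) + 1)
    (h1 : m ≤ g a) (h2 : g (a + k) ≤ m) : ∃ n, a ≤ n ∧ n ≤ a + k ∧ g n = m := by
  obtain ⟨n, hn1, hn2, hn3⟩ := ivt_up (fun i => - g i) (-m) a k (fun i hi hi2 => by
    have := hs i hi hi2
    show - g (i + 1) ≤ - g i + 1
    omega) (by show - g a ≤ - m; omega) (by show - m ≤ - g (a + k); omega)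
  exact ⟨n, hn1, hn2, by have : - g n = - m := hn3; omega⟩

/-- two consecutive integers `> 2` contain at most one prime -/
theorem pi_step (a : ℕ) (ha : 2 ≤ a) : Nat.primeCounting (a + 2) ≤ Nat.primeCounting a + 1 := by
  have h1 : Nat.primeCounting (a + 2) = Nat.primeCounting a + (if (a + 1).Prime then 1 else 0) +
      (if (a + 2).Prime then 1 else 0) := by
    unfold Nat.primeCounting Nat.primeCounting'
    rw [show a + 2 + 1 = (a + 1) + 1 + 1 by ring, Nat.count_succ, Nat.count_succ]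
  rw [h1]
  rcases Nat.even_or_odd a with h | h
  · have : ¬ (a + 2).Prime := by
      intro hp
      have := hp.eq_one_or_self_of_dvd 2 (by obtain ⟨r, rfl⟩ := h; omega)
      omega
    rw [if_neg this]
    split_ifs <;> omega
  · have : ¬ (a + 1).Prime := by
      intro hp
      have := hp.eq_one_or_self_of_dvd 2 (by obtain ⟨r, rfl⟩ := h; omega)
      omega
    rw [if_neg this]
    split_ifs <;> omega

theorem pi_mono {a b : ℕ} (h : a ≤ b) : Nat.primeCounting a ≤ Nat.primeCounting b := Nat.monotone_primeCounting h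

/-- the length of the window grows by at most one per step -/
theorem len_step (lam : ℝ) (hlam : 0 < lam) : ∀ᶠ n : ℕ in atTop,
    ⌊lam * (Real.log (n : ℝ)) ^ 2⌋₊ ≤ ⌊lam * (Real.log ((n + 1 : ℕ) : ℝ)) ^ 2⌋₊ ∧
    ⌊lam * (Real.log ((n + 1 : ℕ) : ℝ)) ^ 2⌋₊ ≤ ⌊lam * (Real.log (n : ℝ)) ^ 2⌋₊ + 1 := by
  have e1 := Real.isLittleO_log_id_atTop.bound (show (0 : ℝ) < 1 / (3 * lam) by positivity)
  have e2 := tendsto_natCast_atTop_atTop (R := ℝ) |>.eventually e1
  filter_upwards [e2, eventually_ge_atTop 3, tendsto_natCast_atTop_atTop (R := ℝ) |>.eventually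
    (eventually_ge_atTop (3 * lam))] with n h1 h2 h3
  have hn : (3 : ℝ) ≤ n := by exact_mod_cast h2
  have hl0 : 0 ≤ Real.log n := Real.log_nonneg (by linarith)
  rw [Real.norm_of_nonneg hl0, id, Real.norm_of_nonneg (by linarith)] at h1
  have hl1 : Real.log n ≤ Real.log ((n + 1 : ℕ) : ℝ) := Real.log_le_log (by linarith) (by push_cast; linarith)
  have hl2 : Real.log ((n + 1 : ℕ) : ℝ) ≤ Real.log n + 1 / n := by
    have h4 : ((n + 1 : ℕ) : ℝ) = n * (1 + 1 / n) := by
      push_cast; field_simp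
    rw [h4, Real.log_mul (by linarith) (by positivity)]
    have := Real.log_le_sub_one_of_pos (show (0 : ℝ) < 1 + 1 / n by positivity)
    linarith
  constructor
  · apply Nat.floor_le_floor
    gcongr
  · have h5 : lam * (Real.log ((n + 1 : ℕ) : ℝ)) ^ 2 ≤ lam * (Real.log (n : ℝ)) ^ 2 + 1 := by
      have h6 : (Real.log ((n + 1 : ℕ) : ℝ)) ^ 2 ≤ (Real.log n + 1 / n) ^ 2 := by
        gcongr
      have h7 : lam * (1 / n) ≤ 1 / 3 := by
        rw [mul_one_div, div_le_iff₀ (by linarith)]
        linarith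
      have h8 : lam * (Real.log n * (1 / n)) ≤ 1 / 3 := by
        rw [mul_one_div, ← mul_div_assoc, div_le_iff₀ (by linarith)]
        have : lam * Real.log n ≤ lam * (1 / (3 * lam) * n) := by gcongr
        have h9 : lam * (1 / (3 * lam) * n) = 1 / 3 * n := by field_simp
        linarith
      have h10 : (1 : ℝ) / n ≤ 1 / 3 := by
        apply one_div_le_one_div_of_le (by norm_num) hn
      have h11 : (0 : ℝ) ≤ 1 / n := by positivity
      have h12 : lam * (1 / n) * (1 / n) ≤ 1 / 3 * (1 / 3) := by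
        apply mul_le_mul h7 h10 h11 (by norm_num)
      nlinarith
    calc ⌊lam * (Real.log ((n + 1 : ℕ) : ℝ)) ^ 2⌋₊ ≤ ⌊lam * (Real.log (n : ℝ)) ^ 2 + 1⌋₊ := Nat.floor_le_floor h5
      _ = ⌊lam * (Real.log (n : ℝ)) ^ 2⌋₊ + 1 := Nat.floor_add_one (by positivity)

/-- windows with few primes, length in terms of `n` -/
theorem few_final (lam : ℝ) (hlam : 0 < lam) (ε : ℝ) (hε : 0 < ε) : ∀ᶠ X : ℝ in atTop, ∃ n : ℕ, X < n ∧
    (n : ℝ) < 3 * X ∧ (cnt n ⌊lam * (Real.log n) ^ 2⌋₊ : ℝ) ≤
      (Real.exp Real.eulerMascheroniConstant / 2 + ε) * (lam * Real.log X) := by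
  set E := Real.exp Real.eulerMascheroniConstant with hE
  have hE0 : 0 < E := Real.exp_pos _
  -- `(E/2 + δ) lam' ≤ (E/2 + ε) lam`
  set δ := ε / 2 with hδ
  set lam' := (E / 2 + ε) / (E / 2 + δ) * lam with hlam'
  have hd : 0 < E / 2 + δ := by positivity
  have hl' : (E / 2 + δ) * lam' = (E / 2 + ε) * lam := by
    rw [hlam', ← mul_assoc, mul_div_cancel₀ _ hd.ne']
  have hll : lam < lam' := by
    rw [hlam']
    have : 1 < (E / 2 + ε) / (E / 2 + δ) := by
      rw [one_lt_div hd]; linarith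
    nlinarith
  have hlam'0 : 0 < lam' := hlam.trans hll
  have e3 : ∀ᶠ X : ℝ in atTop, lam * (Real.log X + 2) ^ 2 ≤ lam' * (Real.log X) ^ 2 := by
    filter_upwards [Real.tendsto_log_atTop.eventually_ge_atTop (8 * lam / (lam' - lam) + 1)] with X hX
    have h7 : 8 * lam ≤ (lam' - lam) * Real.log X := by
      have h8 : 8 * lam / (lam' - lam) ≤ Real.log X := by linarith
      rw [div_le_iff₀ (by linarith)] at h8
      linarith
    have h9 : 1 ≤ Real.log X := by
      have : 0 ≤ 8 * lam / (lam' - lam) := div_nonneg (by linarith) (by linarith)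
      linarith
    nlinarith
  filter_upwards [windows_few lam' hlam'0 δ (by positivity), e3, eventually_ge_atTop (10 : ℝ)] with X h1 h2 h3
  obtain ⟨n, hn1, hn2, hn3⟩ := h1
  refine ⟨n, hn1, hn2, ?_⟩
  have hXpos : 0 < X := by linarith
  have hLn2 : Real.log n ≤ Real.log X + 2 := by
    have a1 : Real.log n ≤ Real.log (4 * X) := Real.log_le_log (by linarith) (by linarith)
    rw [Real.log_mul (by norm_num) hXpos.ne'] at a1
    have a2 : Real.log 4 ≤ 2 := by
      rw [show (4 : ℝ) = 2 ^ 2 by norm_num, Real.log_pow]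
      have := Real.log_two_lt_d9
      push_cast; linarith
    linarith
  have hL0 : 0 ≤ Real.log n := Real.log_nonneg (by linarith)
  have hLX : 0 < Real.log X := Real.log_pos (by linarith)
  have h4 : ⌊lam * (Real.log n) ^ 2⌋₊ ≤ Yf lam' (Real.log X) := by
    unfold Yf
    apply Nat.floor_le_floor
    refine le_trans ?_ h2
    gcongr
  have h5 : (cnt n ⌊lam * (Real.log n) ^ 2⌋₊ : ℝ) ≤ cnt n (Yf lam' (Real.log X)) := by
    exact_mod_cast G.cnt_mono n h4
  have h6 : (Yf lam' (Real.log X) : ℝ) ≤ lam' * (Real.log X) ^ 2 := Nat.floor_le (by positivity)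
  have h7 : Real.log X * cnt n ⌊lam * (Real.log n) ^ 2⌋₊ ≤ Real.log X * ((E / 2 + ε) * (lam * Real.log X)) := by
    calc Real.log X * cnt n ⌊lam * (Real.log n) ^ 2⌋₊ ≤ Real.log X * cnt n (Yf lam' (Real.log X)) := by gcongr
      _ ≤ (E / 2 + δ) * Yf lam' (Real.log X) := hn3
      _ ≤ (E / 2 + δ) * (lam' * (Real.log X) ^ 2) := by gcongr
      _ = (E / 2 + δ) * lam' * (Real.log X) ^ 2 := by ring
      _ = (E / 2 + ε) * lam * (Real.log X) ^ 2 := by rw [hl']
      _ = Real.log X * ((E / 2 + ε) * (lam * Real.log X)) := by ring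
  exact le_of_mul_le_mul_left h7 hLX

/-- For all `λ, ε > 0` and all large `X`, every integer `m` with
`(e^γ / 2 + ε) λ log X ≤ m ≤ 1.07 λ log X` is the exact number of primes in `(n, n + ⌊λ (log n)²⌋]` for some
integer `n` with `X < n < 3 X`. -/
theorem result (lam : ℝ) (hlam : 0 < lam) (ε : ℝ) (hε : 0 < ε) : ∀ᶠ X : ℝ in atTop, ∀ m : ℕ,
    (Real.exp Real.eulerMascheroniConstant / 2 + ε) * (lam * Real.log X) ≤ m →
    (m : ℝ) ≤ 1.07 * (lam * Real.log X) →
    ∃ n : ℕ, X < n ∧ (n : ℝ) < 3 * X ∧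
      Nat.primeCounting (n + ⌊lam * (Real.log n) ^ 2⌋₊) = Nat.primeCounting n + m := by
  obtain ⟨N0, hN0⟩ := eventually_atTop.1 (len_step lam hlam)
  filter_upwards [few_final lam hlam ε hε, many_final lam hlam, eventually_ge_atTop (10 : ℝ),
    eventually_ge_atTop (N0 : ℝ)] with X h1 h2 h3 h4 m hm1 hm2
  obtain ⟨a, ha1, ha2, ha3⟩ := h1
  obtain ⟨b, hb1, hb2, hb3⟩ := h2
  set w : ℕ → ℕ := fun n => ⌊lam * (Real.log (n : ℝ)) ^ 2⌋₊ with hw
  set g : ℕ → ℤ := fun n => (Nat.primeCounting (n + w n) : ℤ) - Nat.primeCounting n with hg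
  have hstep : ∀ i : ℕ, X < i → g (i + 1) ≤ g i + 1 ∧ g i ≤ g (i + 1) + 1 := by
    intro i hi
    have hi1 : N0 ≤ i := by
      have : (N0 : ℝ) ≤ i := by linarith
      exact_mod_cast this
    have hi2 : 2 ≤ i := by
      have : (2 : ℝ) ≤ i := by linarith
      exact_mod_cast this
    obtain ⟨k1, k2⟩ := hN0 i hi1
    have c1 : Nat.primeCounting (i + w i) ≤ Nat.primeCounting (i + 1 + w (i + 1)) := pi_mono (by
      simp only [hw]; omega)
    have c2 : Nat.primeCounting (i + 1 + w (i + 1)) ≤ Nat.primeCounting (i + w i) + 1 := by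
      refine (pi_mono (show i + 1 + w (i + 1) ≤ i + w i + 2 by simp only [hw]; omega)).trans (pi_step _ (by omega))
    have c3 : Nat.primeCounting i ≤ Nat.primeCounting (i + 1) := pi_mono (by omega)
    have c4 : Nat.primeCounting (i + 1) ≤ Nat.primeCounting i + 1 :=
      (pi_mono (by omega)).trans (pi_step i hi2)
    simp only [hg]
    omega
  have hga : g a ≤ m := by
    have h5 : (cnt a (w a) : ℝ) ≤ m := ha3.trans hm1
    have h6 : cnt a (w a) ≤ m := by exact_mod_cast h5
    have h7 := cnt_pi a (w a)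
    have h8 : ((cnt a (w a) : ℤ) : ℝ) = ((g a : ℤ) : ℝ) := by
      simp only [hg]; push_cast; exact h7
    have h9 : (cnt a (w a) : ℤ) = g a := by exact_mod_cast h8
    rw [← h9]
    exact_mod_cast h6
  have hgb : (m : ℤ) ≤ g b := by
    have h5 : Real.log X ≤ Real.log b := Real.log_le_log (by linarith) hb1.le
    have h6 : (m : ℝ) ≤ ((g b : ℤ) : ℝ) := by
      refine hm2.trans (le_trans ?_ (hb3.trans (le_of_eq ?_)))
      · gcongr
      · simp only [hg, hw]; push_cast; rfl
    exact_mod_cast h6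
  have hfin : ∀ n : ℕ, g n = m → Nat.primeCounting (n + w n) = Nat.primeCounting n + m := by
    intro n hn
    simp only [hg] at hn
    omega
  rcases le_total a b with hab | hab
  · obtain ⟨k, rfl⟩ := Nat.exists_eq_add_of_le hab
    obtain ⟨n, hn1, hn2, hn3⟩ := ivt_up g m a k (fun i hi _ => (hstep i (lt_of_lt_of_le ha1 (by exact_mod_cast hi))).1)
      hga hgb
    exact ⟨n, lt_of_lt_of_le ha1 (by exact_mod_cast hn1), lt_of_le_of_lt (by exact_mod_cast hn2) hb2, hfin n hn3⟩
  · obtain ⟨k, rfl⟩ := Nat.exists_eq_add_of_le hab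
    obtain ⟨n, hn1, hn2, hn3⟩ := ivt_down g m b k (fun i hi _ => (hstep i (lt_of_lt_of_le hb1 (by exact_mod_cast hi))).2)
      hgb hga
    exact ⟨n, lt_of_lt_of_le hb1 (by exact_mod_cast hn1), lt_of_le_of_lt (by exact_mod_cast hn2) ha2, hfin n hn3⟩

end Pool.Agent.Results.MP_3bc45c_nt.CramerWindowCounts
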