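import Pool.Agent.Q48.RD.Joint4

/-!
# Primes in several short intervals at once, near `a_1 x, …, a_l x`

Let `g ≥ 2` be a base and `K` a large number of digits. For every `i < K` let `A i` be an arbitrary set of digits, such that the number
`|A 0| ⋯ |A (K - 1)|` of the integers `t < g ^ K` whose `i`-th digit belongs to `A i` for all `i < K` is at least `exp (- δ K) g ^ K`.
Let `N ≤ g ^ (E K)` be arbitrary. We consider the numbers `x = N + t` with these `t`: they form a set with only
`y ^ (1 - δ')` elements in an interval of length `y = g ^ K`, which may be an arbitrarily small power of `x`.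

Cramér's model predicts for the numbers of primes in the short intervals `(a_i x + b_i, a_i x + b_i + T]`, `i ≤ l`, with different
fixed multipliers `a_1, …, a_l ≥ 1` that they behave like independent random variables: the mean value over `x` of the product of their
`k`-th powers should have the order of magnitude of the product of the mean values, where one of these has the order of magnitude of
`(T / K) ^ k` for `T ≥ K` and of `T / K` for `T ≤ K`. Here `T ≤ g ^ (E K)` is arbitrary, from bounded `T` to intervals
of Cramér's length `T = c K ^ 2` and to powers of `x`. We prove for `l ≥ 2`, for all these sets of `x`,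

(1) the upper bound of this order for the primes: in particular, for `T ≤ K` at most the predicted proportion `C (T / K) ^ l` of the
`x` have primes in all the `l` intervals at once;

(2) the exact order of magnitude for the almost primes;

(3) that for at least `κ min (1, T / K) ^ l` of all these `x` EVERY one of the `l` intervals contains at least
`κ max (1, T / K)` almost primes.
-/

set_option autoImplicit false

namespace Pool.Agent.Results.MP_3bc45c_nt.JointWindows

open Filter Finset
open Pool.Agent.Q315.RD Pool.Agent.Q48.RD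

/-- The number of primes `p` with `x < p ≤ x + T`. -/
def primesIn (x T : ℕ) : ℕ := ((Ioc x (x + T)).filter Nat.Prime).card

open Classical in
/-- The number of the integers in `(x, x + T]` with at most `r` prime factors, all larger than `y ^ (1 / r)`. -/
noncomputable def almostPrimesIn (y r x T : ℕ) : ℕ := ((Ioc x (x + T)).filter (AlmostPrime y r)).card

open Classical in
/-- The integers `t < g ^ K` whose `i`-th digit belongs to `A i` for all `i < K`. -/
noncomputable def digitSet (g K : ℕ) (A : ℕ → Finset ℕ) : Finset ℕ := (range (g ^ K)).filter (HasDigits g K A)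

/-- The predicted order of magnitude of the mean value of the `k`-th power for one interval: `T / K` for `T ≤ K` and `(T / K) ^ k`
for `T ≥ K`. -/
noncomputable def order (k T K : ℕ) : ℝ := min 1 ((T : ℝ) / K) * max 1 ((T : ℝ) / K) ^ k

/-- **Primes and almost primes in several short intervals at once.** -/
theorem result {l : ℕ} (hl : 2 ≤ l) (a b : Fin l → ℕ) (ha : ∀ i, 1 ≤ a i) (hinj : Function.Injective a) (k : ℕ) (hk : 1 ≤ k) (E : ℕ) :
    ∃ δ : ℝ, 0 < δ ∧ ∃ r₀ : ℕ, 2 ≤ r₀ ∧ ∀ r : ℕ, r₀ ≤ r → ∀ g : ℕ, 2 ≤ g → ∃ κ C : ℝ, ∃ T₀ : ℕ, 0 < κ ∧ 0 < C ∧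
      ∀ᶠ K : ℕ in atTop, ∀ N T : ℕ, N ≤ g ^ (E * K) → 1 ≤ T → T ≤ g ^ (E * K) →
        ∀ A : ℕ → Finset ℕ, (∀ i < K, A i ⊆ range g) → (g : ℝ) ^ K ≤ Real.exp (δ * K) * choices K A →
        -- the primes
        ∑ t ∈ digitSet g K A, ∏ i, (primesIn (a i * (N + t) + b i) T : ℝ) ^ k ≤ C * order k T K ^ l * choices K A ∧
        -- the almost primes
        ∑ t ∈ digitSet g K A, ∏ i, (almostPrimesIn (g ^ K) r (a i * (N + t) + b i) T : ℝ) ^ k ≤ C * order k T K ^ l * choices K A ∧
        (T₀ ≤ T →
          κ * order k T K ^ l * choices K A ≤ ∑ t ∈ digitSet g K A, ∏ i, (almostPrimesIn (g ^ K) r (a i * (N + t) + b i) T : ℝ) ^ k ∧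
          -- all the `l` intervals contain many almost primes at once
          κ * min 1 ((T : ℝ) / K) ^ l * choices K A ≤
            (((digitSet g K A).filter fun t => ∀ i, κ * max 1 ((T : ℝ) / K) ≤ almostPrimesIn (g ^ K) r (a i * (N + t) + b i) T).card : ℝ)) := by
  classical
  obtain ⟨δ, hδ, r0, hr0, H⟩ := jointMoments (by omega : 0 < l) a ha (∑ i, b i) k hk E
  refine ⟨δ, hδ, r0, hr0, fun r hr g hg => ?_⟩
  obtain ⟨κ, C, T₀, hκ, hC, H⟩ := H r hr g hg
  refine ⟨κ, C, T₀, hκ, hC, ?_⟩
  filter_upwards [H] with K HK
  intro N T hN hT1 hT A hA1 hA2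
  obtain ⟨h1, h2, h3⟩ := HK N T hN hT1 hT b (fun i => by
      have h4 := single_le_sum (f := b) (fun _ _ => Nat.zero_le _) (mem_univ i)
      exact h4.trans (Nat.le_mul_of_pos_right _ hT1)) (fun i j hij h => absurd (hinj h) hij) A ⟨hA1, hA2⟩
  have e1 : ∀ x, primesIn x T = numIn Nat.Prime x T := by
    intro x
    unfold primesIn numIn
    congr!
  have e2 : ∀ x, almostPrimesIn (g ^ K) r x T = numIn (AlmostPrime (g ^ K) r) x T := by
    intro x
    unfold almostPrimesIn numIn
    congr!
  simp only [e1, e2]
  refine ⟨h1, h2, fun hgT => ⟨(h3 hgT).1, (h3 hgT).2.trans (le_of_eq ?_)⟩⟩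
  unfold count digitSet
  rw [filter_filter]
  congr!

end Pool.Agent.Results.MP_3bc45c_nt.JointWindows
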