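import Pool.Agent.Q51.LI.Final
import Pool.Agent.Q51.LI.MomentAs
import Pool.Agent.Q51.LW.Exact

/-!
# MP_3bc45c_nt: the largest gap in Cramér's random model with limited independence

Cramér's model for the primes is a random set `A` of integers `n ≥ 3` with `P(n ∈ A) = 1 / log n`, the events `n ∈ A` being
independent; its largest gap up to `X` has the order `(log X) ^ 2`. We ask how much independence is needed: `IsRandomSet P k X E`
says that only any at most `k` of the events `E n = {n ∈ A}`, `3 ≤ n ≤ X`, are independent.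

* Order `k ≥ 15 log X` suffices for the order of magnitude `(log X) ^ 2`, both for the upper and the lower bound (1), (2). In the
  almost sure statement (2) the independence is only assumed for the integers in `[√X, X]`, for all large `X` (in `[3, X]`, for
  all large `X`, it would concern every finite set of integers and so be full independence). The proof uses the partial sums
  of inclusion and exclusion and a second moment.
* Order `2 r` gives a largest gap of at most `X ^ (1 / (r + 1) + ε)` (3), (4). The proof uses the product of the squares of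
  `r` centered numbers of elements in neighbouring intervals.
* Order `k` does not suffice for less than `X ^ (1 / k) / (24 log X)`, uniformly in `k` (5), (6); so for `k = 2` the exponent
  `1 / 2` is exact, and no order `k = o(log X / log log X)` suffices for `(log X) ^ 2`, nor for any fixed power of `log X`. The
  example: for every block of length `H` take a random polynomial of degree less than `k` over a field with `q`
  elements, `H < q ≤ 2 H`; an integer of the block may belong to `A` only if the value of the polynomial lies in a set of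
  about `q / 2` elements. The polynomial is a constant outside this set with probability about `1 / (2 q ^ (k - 1))`.
-/

namespace Pool.Agent.Results.MP_3bc45c_nt.LimitedIndependence

open MeasureTheory Filter Pool.Agent.Q51.LI
open Pool.Agent.Q51.LW (IsRandomSetIn ae_order)

/-- **The largest gap in Cramér's model with limited independence.** -/
theorem result :
    -- (1) independence of order `15 log X`: probabilities
    (∀ (Ω : Type) (_ : MeasurableSpace Ω) (P : Measure Ω), IsProbabilityMeasure P → ∀ (E : ℕ → Set Ω) (k X : ℕ),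
      IsRandomSet P k X E → 15 * Real.log X ≤ k →
        (3 ≤ X → P.real {ω | HasGap E X (6 * Real.log X ^ 2) ω} ≤ 1 / X) ∧
        (100 ≤ Real.log X →
          P.real {ω | ¬ HasGap E X (Real.log X ^ 2 / 100) ω} ≤ (X : ℝ) ^ (-(1 / 3) : ℝ))) ∧
    -- (2) independence of order `15 log X` in `[√X, X]`: almost sure order of magnitude
    (∀ (Ω : Type) (_ : MeasurableSpace Ω) (P : Measure Ω), IsProbabilityMeasure P → ∀ (E : ℕ → Set Ω) (k : ℕ → ℕ),
      (∀ᶠ X : ℕ in atTop, 15 * Real.log X ≤ k X ∧ IsRandomSetIn P (k X) (Nat.sqrt X) X E) →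
        ∀ᵐ ω ∂P, ∀ᶠ X : ℕ in atTop,
          HasGap E X (Real.log X ^ 2 / 200) ω ∧ ¬ HasGap E X (24 * Real.log X ^ 2) ω) ∧
    -- (3) independence of order `2 r`: probabilities
    (∀ (Ω : Type) (_ : MeasurableSpace Ω) (P : Measure Ω), IsProbabilityMeasure P → ∀ (E : ℕ → Set Ω) (k X r h : ℕ),
      IsRandomSet P k X E → 3 ≤ X → 1 ≤ r → 2 * r ≤ k → 1 ≤ h →
        P.real {ω | HasGap E X (2 * r * h + 1) ω} ≤ X * Real.log X ^ r / (h : ℝ) ^ (r + 1)) ∧
    -- (4) independence of order `2 r`: almost sure bound
    (∀ (Ω : Type) (_ : MeasurableSpace Ω) (P : Measure Ω), IsProbabilityMeasure P → ∀ (E : ℕ → Set Ω) (k r : ℕ),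
      (∀ X, IsRandomSet P k X E) → 1 ≤ r → 2 * r ≤ k → ∀ ε : ℝ, 0 < ε →
        ∀ᵐ ω ∂P, ∀ᶠ X : ℕ in atTop, ¬ HasGap E X ((X : ℝ) ^ (1 / ((r : ℝ) + 1) + ε)) ω) ∧
    -- (5) what independence of order `k` does not give: probabilities
    (∀ X k : ℕ, 1000 ≤ Real.log X → 2 ≤ k → 48 * Real.log X ≤ (X : ℝ) ^ (1 / (k : ℝ)) →
      ∃ (Ω : Type) (_ : MeasurableSpace Ω) (P : Measure Ω) (E : ℕ → Set Ω), IsProbabilityMeasure P ∧
        (∀ Y, IsRandomSet P k Y E) ∧
        P.real {ω | ¬ HasGap E X ((X : ℝ) ^ (1 / (k : ℝ)) / (24 * Real.log X)) ω} ≤ (X : ℝ) ^ (-(1 / 3) : ℝ)) ∧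
    -- (6) what independence of order `k` does not give: almost surely
    (∀ k : ℕ, 2 ≤ k →
      ∃ (Ω : Type) (_ : MeasurableSpace Ω) (P : Measure Ω) (E : ℕ → Set Ω), IsProbabilityMeasure P ∧
        (∀ X, IsRandomSet P k X E) ∧
        ∀ᵐ ω ∂P, ∀ᶠ X : ℕ in atTop, HasGap E X ((X : ℝ) ^ (1 / (k : ℝ)) / (48 * Real.log X)) ω) := by
  have hexp : ∀ X : ℕ, 100 ≤ Real.log X → Real.exp (-(Real.log X / 3)) = (X : ℝ) ^ (-(1 / 3) : ℝ) := by
    intro X hX
    have hX0 : (0 : ℝ) < X := by
      rcases Nat.eq_zero_or_pos X with h | h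
      · subst h
        simp at hX
        linarith
      · exact_mod_cast h
    rw [Real.rpow_def_of_pos hX0]
    congr 1
    ring
  refine ⟨?_, ?_, ?_, ?_, ?_, ?_⟩
  · intro Ω _ P _ E k X hE hk
    refine ⟨fun hX => gap_upper hX hk hE, fun hX => ?_⟩
    rw [← hexp X hX]
    exact gap_lower hX hk hE
  · intro Ω _ P _ E k h
    exact ae_order E k h
  · intro Ω _ P _ E k X r h hE hX hr hk hh
    exact gap_moment hX hE h r hh hr hk
  · intro Ω _ P _ E k r h hr hk ε hε
    exact ae_moment r k hr hk E h ε hε
  · intro X k hX hk hw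
    obtain ⟨Ω, mΩ, P, E, h1, h2, h3⟩ := counter_finite X hX k hk hw
    refine ⟨Ω, mΩ, P, E, h1, h2, ?_⟩
    rw [← hexp X (by linarith)]
    exact h3
  · intro k hk
    exact counter_ae k hk

end Pool.Agent.Results.MP_3bc45c_nt.LimitedIndependence
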