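import Mathlib
import Pool.Agent.Q46.CM.Osc5
import Pool.Agent.Q46.CM.Exist

/-!
# The second order of the largest gap in Cramér's random model and in its sieved versions

Random model with sieve level `z₀`: the integer `n` is never kept if it has a prime factor `≤ z₀`, otherwise it is kept,
independently of the others, with probability `min 1 (1 / (V log n))`, `V = ∏_{p ≤ z₀} (1 - 1/p)`; `z₀ = 1` is Cramér's
own model. Let `G(x)` be the largest gap between consecutive kept integers up to `x`, as in the problem. Cramér's theorem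
is `G(x) ~ (log x)²` almost surely. We determine the almost sure oscillation of the second order term, for every `z₀`:
almost surely

`limsup (G(x) - (log x)²) / (log x log log x) = 0` and `liminf (G(x) - (log x)²) / (log x log log x) = -1`,

and moreover `G(x) ≥ (log x)²` for arbitrarily large `x`.

Proof: the events `n is kept and the next h(n) integers are not` are pairwise nonpositively correlated (second moment
method); for the lower envelope a dyadic block is divided into `(log x) ^ δ` independent pieces; for the sparse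
places `2 ^ (2 ^ k)` the first moment is summable. The corresponding facts for the longest run of heads are due to
Erdős and Révész.
-/

set_option autoImplicit false

namespace Pool.Agent.Results.MP_3bc45c_nt.OscillationInRandomModels

open Filter Topology MeasureTheory ProbabilityTheory Pool.Agent.H318R2.Cr Pool.Agent.Q46.CM

universe u

/-- The model with constant level `z₀` exists, and in every such model, almost surely for all `ε > 0`:
(i) `G(x) ≤ (log x)² + ε log x log log x` for all large `x`, (ii) `G(x) ≥ (log x)²` for arbitrarily large `x`,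
(iii) `G(x) ≥ (log x)² - (1 + ε) log x log log x` for all large `x`,
(iv) `G(x) ≤ (log x)² - (1 - ε) log x log log x` for arbitrarily large `x`. -/
theorem result :
    (∀ z₀ : ℕ, ∃ (μ : Measure (ℕ → Bool)) (A : ℕ → Set (ℕ → Bool)), IsSievedModel μ (fun _ => z₀) A) ∧
    (∀ (z₀ : ℕ) (Ω : Type u) [MeasurableSpace Ω] (μ : Measure Ω) (A : ℕ → Set Ω),
      IsSievedModel μ (fun _ => z₀) A → ∀ᵐ ω ∂μ, ∀ ε : ℝ, 0 < ε →
        (∃ x₀ : ℝ, ∀ x : ℝ, x₀ ≤ x → GapUp {n | ω ∈ A n} x ≤
          ((Real.log x ^ 2 + ε * Real.log x * Real.log (Real.log x) : ℝ) : EReal)) ∧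
        (∀ x₀ : ℝ, ∃ x : ℝ, x₀ ≤ x ∧ ((Real.log x ^ 2 : ℝ) : EReal) ≤ GapUp {n | ω ∈ A n} x) ∧
        (∃ x₀ : ℝ, ∀ x : ℝ, x₀ ≤ x →
          ((Real.log x ^ 2 - (1 + ε) * Real.log x * Real.log (Real.log x) : ℝ) : EReal) ≤ GapUp {n | ω ∈ A n} x) ∧
        (∀ x₀ : ℝ, ∃ x : ℝ, x₀ ≤ x ∧ GapUp {n | ω ∈ A n} x ≤
          ((Real.log x ^ 2 - (1 - ε) * Real.log x * Real.log (Real.log x) : ℝ) : EReal))) := by
  refine ⟨fun z₀ => exists_model _, fun z₀ Ω _ μ A hA => ?_⟩
  have e : ∀ c x : ℝ, Gc (-c) x = Real.log x ^ 2 - c * Real.log x * Real.log (Real.log x) := by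
    intro c x
    unfold Gc
    ring
  filter_upwards [osc hA] with ω hω ε hε
  obtain ⟨h1, h2, h3, h4⟩ := hω ε hε
  simp only [e] at h3 h4
  exact ⟨h1, h2, h3, h4⟩

end Pool.Agent.Results.MP_3bc45c_nt.OscillationInRandomModels
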